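import Pool.Agent.Results.MP_8865d3_nt.MonomialWindows
import Pool.Agent.N375.AV.D

/-!
# Vojta's conjecture with multiplier ideals above all points of height near values of additive functions

Let `a_0, …, a_{q-1}` be linear forms in `n + 1` variables over a number field `K`, any `n + 1` of them
linearly independent, `κ ≥ 0`, and let `X_m` be the Fermat intersection which lies above `ℙ^n` (the points
`(y_0 : … : y_{q-1})` with `y_i ^ m` proportional to `a_i(x)`). Let `F = f_1 ∘ ⋯ ∘ f_k` be a composition of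
functions dominated by the largest prime factor (`PD`), for example additive functions `f` with
`f (p^j) ≤ C p^j`, with different values at different large primes (the sum of the prime factors), the
largest prime factor itself, and Kempner's function. Let `G` have steps bounded below by a positive
constant and growth at most `v ^ e`, for example `G v = v`, let `θ ≥ 0` and
`e exponent(n, q, κ) / (n + 1) + θ < 1`. For every real `c`, for all `u ≤ N` but
`M N exp (- b (log N)^(1 / (k + 1)))`: for ALL points `x ∈ ℙ^n(K)` off the hyperplanes with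
`|H_K(x) ^ (n + 1) - G (F u)| ≤ F(u) ^ θ`, ALL `m ≥ 1`, ALL points `P` of `X_m` above `x`, over any number
field `L`, ALL monomial ideals `I` and ALL finite sets `S` of primes
`(κ m - q) h(P) + ∑_{v ∈ S ∪ {∞}} (λ_I - λ_{I⁻})(P, v) ≤ d(L) + ∑_{p ∈ S} log p - c`.
The values of `F` are taken with very large multiplicities and `F(u)` is in general much smaller than `u`;
and so this does not follow from the number of the exceptional points.

Proof: the starting library `N375/AV` (preimages of thin sets under functions dominated by the largest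
prime factor) and the starting theorem `MP_8865d3_nt.MonomialIdeals` (the number of exceptional points).
-/

set_option autoImplicit false

namespace Pool.Agent.Results.MP_8865d3_nt.AdditiveValues

open NumberField LinearAlgebra.Projectivization
open Pool.Agent.Results.MP_8865d3_nt.MonomialIdeals (lin baseHeight height proximity logDisc exponent
  exceptional)
open Pool.Agent.Results.MP_8865d3_nt.MonomialWindows (count expo_nonneg)
open Pool.Agent.N733.TG (Expanding)
open Pool.Agent.N375.AV (PD comp good)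

/-- The inequality `(κ m - q) h(P) + ∑_{v ∈ S ∪ {∞}} (λ_I - λ_{I⁻})(P, v) ≤ d(L) + ∑_{p ∈ S} log p - c` for
ALL `m ≥ 1`, ALL points `P` of `X_m` above `x`, over any number field `L`, ALL monomial ideals `I` and ALL
finite sets `S` of primes. -/
def VojtaAbove {K : Type} [Field K] [NumberField K] {n q : ℕ} (a : Fin q → Fin (n + 1) → K)
    (κ c : ℝ) (x : ℙ K (Fin (n + 1) → K)) : Prop :=
  ∀ (m : ℕ) (L : Type) [Field L] [NumberField L] [Algebra K L] (y : Fin q → L) (t : L)
    (I : Finset (Fin q → ℕ)) (S : Finset ℕ), 1 ≤ m → t ≠ 0 →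
    (∀ i, y i ^ m = t * algebraMap K L (lin (a i) x.rep)) → I.Nonempty → (∀ p ∈ S, p.Prime) →
      (κ * m - q) * height y + proximity S y I ≤ logDisc L + ∑ p ∈ S, Real.log p - c

/-- **Vojta's conjecture with multiplier ideals above the points of height near the values of
compositions of additive functions.** Let `K` be a number field, `n ≥ 1`, `q ≥ n + 1`, `a_0, …, a_{q-1}`
linear forms in `n + 1` variables over `K`, any `n + 1` of them linearly independent, `κ ≥ 0` and `c` real.
Let `F = comp fs` be a composition of functions dominated by the largest prime factor, `G` with steps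
`≥ a > 0` and growth at most `v ^ e`, `θ ≥ 0` and `e exponent(n, q, κ) / (n + 1) + θ < 1`. For all `u ≤ N` but
`M N exp (- b (log N)^(1 / (k + 1)))`, for ALL `x ∈ ℙ^n(K)` off the hyperplanes with
`|H_K(x) ^ (n + 1) - G (F u)| ≤ F(u) ^ θ` the inequality of the conjecture holds above `x`
(`VojtaAbove a κ c x`). -/
theorem result (K : Type) [Field K] [NumberField K] (n q : ℕ) (hn : 1 ≤ n) (hq : n + 1 ≤ q)
    (a : Fin q → Fin (n + 1) → K)
    (ha : ∀ I : Finset (Fin q), I.card = n + 1 → LinearIndependent K (fun i : I => a i))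
    (κ c : ℝ) (hκ : 0 ≤ κ) (fs : List (ℕ → ℕ)) (hfs : ∀ f ∈ fs, PD f)
    (G : ℕ → ℝ) (e : ℝ) (hG : Expanding G e) (θ : ℝ) (hθ : 0 ≤ θ)
    (h1 : e * (exponent n q κ / (n + 1)) + θ < 1) :
    ∃ b M : ℝ, 0 < b ∧ ∀ N : ℕ, 1 ≤ N →
      ({u : ℕ | 1 ≤ u ∧ u ≤ N ∧ ¬ ∀ x : ℙ K (Fin (n + 1) → K), (∀ i, lin (a i) x.rep ≠ 0) →
          |x.mulHeight ^ (n + 1) - G (comp fs u)| ≤ (comp fs u : ℝ) ^ θ →
          VojtaAbove a κ c x}.ncard : ℝ) ≤
        M * N * Real.exp (-(b * Real.log N ^ ((1 : ℝ) / (fs.length + 1)))) := by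
  have hs : 0 ≤ exponent n q κ / (n + 1) := div_nonneg (expo_nonneg hn hq hκ) (by positivity)
  refine good (fun x : ℙ K (Fin (n + 1) → K) => ∀ i, lin (a i) x.rep ≠ 0) (VojtaAbove a κ c)
    (fun x => x.mulHeight ^ (n + 1)) fs hfs hG (s := exponent n q κ / (n + 1)) (κ := θ) hs hθ h1
    (fun ε hε => ?_)
  obtain ⟨C, hC⟩ := count K hn hq a ha κ (-c) ε hκ hε
  refine ⟨C, fun X hX => ?_⟩
  have e1 : {x : ℙ K (Fin (n + 1) → K) | ((∀ i, lin (a i) x.rep ≠ 0) ∧ ¬ VojtaAbove a κ c x) ∧
      x.mulHeight ^ (n + 1) ≤ X} ⊆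
      {x | x ∈ (⋃ B : ℝ, exceptional a κ (-c) B) ∧ x.mulHeight ^ (n + 1) ≤ X} := by
    rintro x ⟨⟨h2, h3⟩, h4⟩
    refine ⟨?_, h4⟩
    unfold VojtaAbove at h3
    push Not at h3
    obtain ⟨m, L, i1, i2, i3, y, t, I, S, hm, ht, hy, hI, hS, h5⟩ := h3
    exact Set.mem_iUnion.2 ⟨Real.exp (baseHeight x), h2, le_refl _, m, L, i1, i2, i3, y, t, I, S, hm, ht,
      hy, hI, hS, by linarith⟩
  obtain ⟨hf, hc⟩ := hC X hX
  refine ⟨hf.subset e1, le_trans ?_ hc⟩
  exact_mod_cast Set.ncard_le_ncard e1 hf

end Pool.Agent.Results.MP_8865d3_nt.AdditiveValues
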