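import Pool.Agent.N395.CV.KeyB
import Pool.Agent.Helper89V.PCM

/-!
# Vojta's inequality with ALL ideals on ALL products of curves, above almost all tuples of points of
# any degrees

Let `K` be a number field, `m ≥ 1` and `r_1, …, r_m ≥ 1`. We construct ONE set `E` of tuples
`(p_1, …, p_m)` of closed points of the line, `p_i` of degree `r_i` over `K` (given by its minimal
polynomial), of density zero, more precisely at most `C exp(-√U)` times the number of all tuples of
height at most `U`, which is exceptional for all of the following at once.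

- All number fields `k ⊇ K`, all products `X = C_1 × … × C_m` of smooth projective curves over `k` and
  all finite maps `t_i : C_i → ℙ¹` over `k` which are unramified outside the fibres over `∞` and over
  points `a_{i 1}, …, a_{i q_i}` of `k` of degree at most `2 r_i + 1` over `K`, `q_i` arbitrary. By
  Belyi's theorem every curve over every number field has such maps, even with rational `a_{ij}`.
- All nonzero ideal sheaves `I` on `X` and all finite sets `S` of places.
- All reduced divisors `D = ∑ pr_i^* D_{ij}`, `D_{ij}` a part of the fibre of `t_i` over `a_{ij}`.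

Let `P` be ANY point of `X`, of any degree, such that `x_i = t_i(P_i)` is a point of degree `r_i` over
`K`, `x_i ≠ a_{ij}`, and the tuple of the closed points of the `x_i` is not in `E`. Then
`h_{K_X}(P) + h_D(P) + ∑_{v ∈ S} λ_I(P, v) + (1 - ε) ∑_i h(x_i) ≤ d(P) + N_S^{(1)}(D, P) + O(1)`
if `P` is not in a proper closed set which depends only on `I` (and the `x` of the `P` in this set
have bounded height). For `D = 0` this is Q1, with the additional term `(1 - ε) ∑_i h(x_i)` on the
left side; the correction term `∑_{v ∈ S} λ_{I^-}(P, v) ≥ - O(1)` is not needed.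

**The data.** `A_i` is the ring of the functions on `C_i` with poles only over `∞`: a Dedekind
domain, finite over `k[t]`, of rank `N_i`. The points of `C_i` over `L ⊇ k`, not above `∞`, are the
homomorphisms `A_i → L` over `k`. The `y_{ij1}, y_{ij2}, …` are generators of the ideal of `D_{ij}`
(a number which is a unit if `D_{ij} = 0`), and `F_{ij}` is the ideal of the rest of the reduced fibre
over `a_{ij}`, so that `y f` is in the radical of `(t - a_{ij})` for `y` in the ideal of `D_{ij}` and
`f ∈ F_{ij}`. By the formula of Riemann and Hurwitz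
`q_i - (∑_j dim (A_i / F_{ij})) / N_i = deg (K_{C_i} + D_i) / N_i + 1 + s_i / N_i`, `s_i ≥ 1` the
number of points above `∞`, `D_i = ∑_j D_{ij}`. This is `degree` below.

**The ideals.** The image of the closed set `V(I)` in `(ℙ¹)^m` is a proper closed subset (its
dimension is less than `m`), so it is contained in a hypersurface `Q = 0`, `Q` a multihomogeneous form
over `k`, and a power `Q ^ N` belongs to `I` locally. So `λ_I(P, v) ≤ N λ_Q(x, v) + O_v(1)`, and the
sum of the `λ_Q(x, v)` over `v ∈ S` (containing the archimedean place) is `proximity` below: the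
theorem bounds it with an arbitrarily large factor `Λ`.

Proof. (1) Points of the line: if the coefficients of the minimal polynomial of `x` of degree `r` are
in a box, then the norm of `x - a`, `a` of degree `n`, is a decomposable form in `r + 1` variables over
`K` which is rarely divisible by the square of a prime or two primes above the same `v` (lattices of
index `N(v) ^ 2`) if `n ≤ 2 r + 1`. So the truncated counting function of `∑ a_j` at almost all `x` is
`(q - κ) h(x)`. (2) The primes of `K` at which two coordinates of `x` are both near the `a_{ij}` are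
rarely many (a large sieve for the residues of two polynomials). (3) The proximity function of any
hypersurface is rarely large: elimination. (4) One exceptional set for the countably many conditions
(diagonal argument). (5) Above the primes at which `x_i` is near `a_{ij}` there is ramification in
`L`, unless `P_i` is near `D_i` or near `F_{ij}` ; the primes at which `P_i` is near `F_{ij}` are
bounded by `dim (A_i / F_{ij}) / N_i h(x_i)` by the product formula for a function on `C_i` with a zero
of high order along `F_{ij}`.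

The case of `K`-rational points and rational `a_{ij}` (`r_i = 1`) is in
`MP_651af7_nt/UniversalExceptionalSet`.
-/

set_option autoImplicit false

namespace Pool.Agent.Results.MP_8865d3_nt.AllDegreesOnProducts

open Polynomial IsDedekindDomain NumberField

/-- The absolute logarithmic height of `x ∈ L`. -/
noncomputable def height {L : Type} [Field L] [NumberField L] (x : L) : ℝ :=
  Height.logHeight₁ x / Module.finrank ℚ L

/-- The (absolute) logarithmic discriminant `d(L) = log |disc L| / [L : ℚ]`. -/
noncomputable def logDisc (L : Type) [Field L] [NumberField L] : ℝ :=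
  Real.log |(NumberField.discr L : ℝ)| / Module.finrank ℚ L

/-- The value `t(P)` of the function `t` at the point `P` of the curve with the ring of functions
`A`. -/
noncomputable def coord {k A : Type} [Field k] [CommRing A] [Algebra k A] [Algebra k[X] A]
    {L : Type} [Field L] [Algebra k L] (P : A →ₐ[k] L) : L := P (algebraMap k[X] A X)

/-- `q - (∑_j dim (A / F_j)) / N`, where `N` is the rank of `A` over `k[t]`. -/
noncomputable def degree (k : Type) {A : Type} [Field k] [CommRing A] [Algebra k A]
    [Algebra k[X] A] {q : ℕ} (F : Fin q → Ideal A) : ℝ :=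
  q - (∑ j, (Module.finrank k (A ⧸ F j) : ℝ)) / Module.finrank k[X] A

/-- The tuples of closed points of the line over `K`, the `i`-th one of degree `r_i` and of absolute
height at most `U`, given by their minimal polynomials. -/
def tuples (K : Type) [Field K] {m : ℕ} (r : Fin m → ℕ) (U : ℝ) : Set (Fin m → K[X]) :=
  {p | ∀ i, ∃ (M : Type) (_ : Field M) (_ : NumberField M) (_ : Algebra K M) (x : M),
    Module.finrank K M = r i ∧ (minpoly K x).natDegree = r i ∧ minpoly K x = p i ∧ height x ≤ U}

/-- `[K : ℚ] ∑ r_i (r_i + 1)` -/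
noncomputable def growth (K : Type) [Field K] [NumberField K] {m : ℕ} (r : Fin m → ℕ) : ℝ :=
  Module.finrank ℚ K * ∑ i, (r i : ℝ) * (r i + 1)

open Classical in
/-- The sum of the local heights `log (∏_i max (|x_i|, 1) ^ e_i / |Q(x)|)` of the hypersurface
`Q = 0`, `Q` of degree at most `e_i` in the `i`-th variable, over the infinite places (with the
multiplicities `[L_w : ℝ]`) and the primes above the primes of `S`, divided by `[L : ℚ]`. The absolute
values are normalised so that the product formula holds. -/
noncomputable def proximity {k : Type} [Field k] {m : ℕ} (S : Finset ℕ) (e : Fin m → ℕ)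
    (Q : MvPolynomial (Fin m) k) {L : Type} [Field L] [NumberField L] [Algebra k L]
    (x : Fin m → L) : ℝ :=
  (∑ w : InfinitePlace L, (w.mult : ℝ) *
      Real.log ((∏ i, max (w (x i)) 1 ^ e i) / w (MvPolynomial.aeval x Q)) +
    ∑ᶠ v : HeightOneSpectrum (𝓞 L), if ∃ p ∈ S, (p : 𝓞 L) ∈ v.asIdeal then
      Real.log ((∏ i, max (FinitePlace.mk v (x i)) 1 ^ e i) /
        FinitePlace.mk v (MvPolynomial.aeval x Q)) else 0) / Module.finrank ℚ L

open Classical in
/-- The truncated counting function: the sum of `log N(w)` over the primes `w` of `L`, not above the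
primes of `S`, at which for some `i` and `j` the value `t_i(P_i)` has the reduction of `a_{ij}` and
all the functions `y_{ijl}` vanish at the reduction of `P_i`, divided by `[L : ℚ]`. -/
noncomputable def counting {k : Type} [Field k] {m : ℕ} {A : Fin m → Type} [∀ i, CommRing (A i)]
    [∀ i, Algebra k (A i)] [∀ i, Algebra k[X] (A i)] (S : Finset ℕ) {q : Fin m → ℕ}
    (a : ∀ i, Fin (q i) → k) {u : ∀ i, Fin (q i) → ℕ} (y : ∀ i j, Fin (u i j) → A i)
    {L : Type} [Field L] [NumberField L] [Algebra k L] (P : ∀ i, A i →ₐ[k] L) : ℝ :=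
  (∑ᶠ w : HeightOneSpectrum (𝓞 L), if (∀ p ∈ S, (p : 𝓞 L) ∉ w.asIdeal) ∧
      ∃ i, w.valuation L (coord (P i)) ≤ 1 ∧ ∃ j,
        w.valuation L (coord (P i) - algebraMap k L (a i j)) < 1 ∧
        ∀ l, w.valuation L (P i (y i j l)) < 1
    then Real.log (Ideal.absNorm w.asIdeal) else 0) / Module.finrank ℚ L

section

open Pool.Agent.N753.DR Pool.Agent.Helper89V

/-- the number of tuples in terms of `HT` -/
theorem tuples_eq (K : Type) [Field K] [NumberField K] {m : ℕ} (r : Fin m → ℕ)
    (hr : ∀ i, 1 ≤ r i) (U : ℝ) :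
    tuples K r U = {P | HT r (Module.finrank ℚ K * U) P} := by
  have hd : (0 : ℝ) < Module.finrank ℚ K := by exact_mod_cast Module.finrank_pos
  ext p
  refine forall_congr' fun i => ?_
  have hr0 : (0 : ℝ) < r i := by exact_mod_cast hr i
  constructor
  · rintro ⟨M, i1, i2, i3, x, h1, h2, h3, h4⟩
    refine ⟨M, i1, i2, i3, x, h1, h2, h3, ?_⟩
    have h5 : Module.finrank ℚ K * Module.finrank K M = Module.finrank ℚ M :=
      Module.finrank_mul_finrank ℚ K M
    have hM : (0 : ℝ) < Module.finrank ℚ M := by exact_mod_cast Module.finrank_pos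
    unfold height at h4
    rw [div_le_iff₀ hM, ← h5, h1] at h4
    push_cast at h4
    linarith
  · rintro ⟨M, i1, i2, i3, x, h1, h2, h3, h4⟩
    refine ⟨M, i1, i2, i3, x, h1, h2, h3, ?_⟩
    have h5 : Module.finrank ℚ K * Module.finrank K M = Module.finrank ℚ M :=
      Module.finrank_mul_finrank ℚ K M
    have hM : (0 : ℝ) < Module.finrank ℚ M := by exact_mod_cast Module.finrank_pos
    unfold height
    rw [div_le_iff₀ hM, ← h5, h1]
    push_cast
    linarith

/-- a finite sum is the finsum -/
theorem finsum_filter {ι : Type} {p : ι → Prop} [DecidablePred p] (hp : {i | p i}.Finite)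
    (f : ι → ℝ) : ∑ᶠ i, (if p i then f i else 0) = ∑ i ∈ hp.toFinset, f i := by
  rw [finsum_eq_sum_of_support_subset (s := hp.toFinset)]
  · refine Finset.sum_congr rfl fun i hi => ?_
    rw [Set.Finite.mem_toFinset] at hi
    exact if_pos hi
  · intro i hi
    rw [Function.mem_support] at hi
    rw [Finset.mem_coe, Set.Finite.mem_toFinset]
    by_contra h
    exact hi (if_neg h)

end

/-- **Vojta's inequality with all ideals on all products of curves.** Let `K` be a number field,
`m ≥ 1` and `r_1, …, r_m ≥ 1`. There is ONE set `E` of tuples of closed points of the line over `K`,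
the `i`-th one of degree `r_i`, such that

(1) the number of the tuples of height at most `U` is between `exp(g U) / C` and `C exp(g U)`,
`g = [K : ℚ] ∑ r_i (r_i + 1)`, and at most `C exp(-√U)` times their number are in `E`, for large `U`;

(2) for all number fields `k ⊇ K`, all families of Dedekind domains `A_i`, finite over `k[t]` and
containing it (the rings of functions of smooth affine curves over `k` which are finite over the
`t`-line), all finite families of distinct `a_{ij} ∈ k` of degree at most `2 r_i + 1` over `K`, all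
elements `y_{ijl}` and nonzero ideals `F_{ij}` of `A_i` with `y_{ijl} F_{ij} ⊆ √(t - a_{ij})`, all
finite sets `S` of primes, all nonzero polynomials `Q` over `k` in `m` variables, of degree at most
`e_i` in the `i`-th variable, all `Λ` and all `ε > 0` there is a constant `c` such that for all number
fields `L ⊇ k` and all families `P` of points `P_i` over `L` of the curves, with `x_i = t(P_i)` of
degree `r_i` over `K`, `x_i ≠ a_{ij}` and the tuple of the minimal polynomials of the `x_i` not in
`E`: if `Q(x) = 0` then `∑_i h(x_i) ≤ c`, and if `Q(x) ≠ 0` then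
`∑_i (q_i - (∑_j dim (A_i / F_{ij})) / N_i - ε) h(x_i) + Λ m_S(Q, x) ≤
  d(L) + N_S^{(1)}(P) + c`. -/
theorem result (K : Type) [Field K] [NumberField K] (m : ℕ) (hm : 1 ≤ m) (r : Fin m → ℕ)
    (hr : ∀ i, 1 ≤ r i) :
    ∃ E : Set (Fin m → K[X]),
      (∃ C U₀ : ℝ, 0 < C ∧ ∀ U : ℝ, U₀ ≤ U → (tuples K r U).Finite ∧
        Real.exp (growth K r * U) / C ≤ ((tuples K r U).ncard : ℝ) ∧
        ((tuples K r U).ncard : ℝ) ≤ C * Real.exp (growth K r * U) ∧
        ((E ∩ tuples K r U).ncard : ℝ) ≤
          C * Real.exp (-√U) * ((tuples K r U).ncard : ℝ)) ∧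
      ∀ (k : Type) [Field k] [NumberField k] [Algebra K k] (A : Fin m → Type)
        [∀ i, CommRing (A i)] [∀ i, IsDedekindDomain (A i)] [∀ i, Algebra k (A i)]
        [∀ i, Algebra k[X] (A i)] [∀ i, IsScalarTower k k[X] (A i)]
        [∀ i, Module.Finite k[X] (A i)] [∀ i, FaithfulSMul k[X] (A i)]
        (q : Fin m → ℕ) (a : ∀ i, Fin (q i) → k) (u : ∀ i, Fin (q i) → ℕ)
        (y : ∀ i j, Fin (u i j) → A i) (F : ∀ i, Fin (q i) → Ideal (A i)),
        (∀ i, Function.Injective (a i)) →
        (∀ i j, (minpoly K (a i j)).natDegree ≤ 2 * r i + 1) → (∀ i j, F i j ≠ ⊥) →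
        (∀ i j l, ∀ f ∈ F i j,
          y i j l * f ∈ (Ideal.span {algebraMap k[X] (A i) (X - C (a i j))}).radical) →
        ∀ (S : Finset ℕ) (e : Fin m → ℕ) (Q : MvPolynomial (Fin m) k), (∀ p ∈ S, p.Prime) →
        Q ≠ 0 → (∀ i, Q.degreeOf i ≤ e i) → ∀ (Λ : ℕ) (ε : ℝ), 0 < ε → ∃ c : ℝ,
        ∀ (L : Type) [Field L] [NumberField L] [Algebra K L] [Algebra k L] [IsScalarTower K k L]
          (P : ∀ i, A i →ₐ[k] L), (∀ i, (minpoly K (coord (P i))).natDegree = r i) →
          (fun i => minpoly K (coord (P i))) ∉ E →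
          (∀ i j, coord (P i) ≠ algebraMap k L (a i j)) →
          (MvPolynomial.aeval (fun i => coord (P i)) Q = 0 → ∑ i, height (coord (P i)) ≤ c) ∧
          (MvPolynomial.aeval (fun i => coord (P i)) Q ≠ 0 →
            ∑ i, (degree k (F i) - ε) * height (coord (P i)) +
                Λ * proximity S e Q (fun i => coord (P i)) ≤
              logDisc L + counting S a y P + c) := by
  classical
  obtain ⟨E, E', C0, hC0, hE, hcoin, hprox, hline, hEE⟩ :=
    Pool.Agent.Helper89V.exists_exc K hm r hr
  refine ⟨E, ?_, ?_⟩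
  · -- the density
    obtain ⟨C1, hC1, -, hC2⟩ := Pool.Agent.Helper89V.HT_card K r hr
    obtain ⟨c, T₀, hc, hlow⟩ := Pool.Agent.Helper89V.HT_low K r hr
    have hd1 : (1 : ℝ) ≤ Module.finrank ℚ K := by exact_mod_cast Module.finrank_pos
    have hd : (0 : ℝ) < Module.finrank ℚ K := by linarith
    have hCm : 0 < C1 ^ m := by positivity
    have hg : ∀ U : ℝ, growth K r * U =
        Pool.Agent.Helper89V.ex r * (Module.finrank ℚ K * U) := by
      intro U
      unfold growth Pool.Agent.Helper89V.ex
      ring
    refine ⟨C1 ^ m + 1 / c + C0 / c, max 0 (T₀ / Module.finrank ℚ K), by positivity, ?_⟩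
    intro U hU
    have hU0 : 0 ≤ U := (le_max_left _ _).trans hU
    have hUT : T₀ ≤ Module.finrank ℚ K * U := by
      have := (le_max_right _ _).trans hU
      rw [div_le_iff₀ hd] at this
      linarith
    have hT0 : 0 ≤ (Module.finrank ℚ K : ℝ) * U := mul_nonneg hd.le hU0
    obtain ⟨h1, h2⟩ := hC2 _ hT0
    obtain ⟨-, h3⟩ := hlow _ hUT
    obtain ⟨h4, h5⟩ := hE _ hT0
    rw [tuples_eq K r hr, hg]
    have hpos : 0 < C1 ^ m + 1 / c + C0 / c := by positivity
    refine ⟨h1, ?_, ?_, ?_⟩
    · rw [div_le_iff₀ hpos]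
      have h6 : 1 / c ≤ C1 ^ m + 1 / c + C0 / c := by
        have : 0 ≤ C0 / c := by positivity
        linarith
      have h7 := mul_le_mul h3 h6 (by positivity) (Nat.cast_nonneg _)
      have h8 : c * Real.exp (Pool.Agent.Helper89V.ex r * (Module.finrank ℚ K * U)) * (1 / c) =
          Real.exp (Pool.Agent.Helper89V.ex r * (Module.finrank ℚ K * U)) := by
        field_simp
      rw [h8] at h7
      exact h7
    · refine h2.trans (mul_le_mul_of_nonneg_right ?_ (Real.exp_pos _).le)
      have : 0 ≤ C0 / c := by positivity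
      have : 0 ≤ 1 / c := by positivity
      linarith
    · have h6 : E ∩ {P | Pool.Agent.N753.DR.HT r (Module.finrank ℚ K * U) P} =
          {P | P ∈ E ∧ Pool.Agent.N753.DR.HT r (Module.finrank ℚ K * U) P} := rfl
      rw [h6]
      have h7 : √U ≤ √(Module.finrank ℚ K * U) := Real.sqrt_le_sqrt (by nlinarith)
      have h8 : Real.exp (Pool.Agent.Helper89V.ex r * (Module.finrank ℚ K * U) -
          √(Module.finrank ℚ K * U)) ≤
          Real.exp (-√U) * Real.exp (Pool.Agent.Helper89V.ex r * (Module.finrank ℚ K * U)) := by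
        rw [← Real.exp_add]
        exact Real.exp_le_exp.2 (by linarith)
      have h9 : C0 * Real.exp (Pool.Agent.Helper89V.ex r * (Module.finrank ℚ K * U)) ≤
          C0 / c * ({P : Fin m → K[X] |
            Pool.Agent.N753.DR.HT r (Module.finrank ℚ K * U) P}.ncard : ℝ) := by
        have h10 := mul_le_mul_of_nonneg_left h3 (show 0 ≤ C0 / c by positivity)
        have h11 : C0 / c * (c * Real.exp (Pool.Agent.Helper89V.ex r *
            (Module.finrank ℚ K * U))) =
            C0 * Real.exp (Pool.Agent.Helper89V.ex r * (Module.finrank ℚ K * U)) := by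
          field_simp
        rw [h11] at h10
        exact h10
      have h12 : C0 / c ≤ C1 ^ m + 1 / c + C0 / c := by
        have : 0 ≤ 1 / c := by positivity
        linarith
      calc ({P | P ∈ E ∧ Pool.Agent.N753.DR.HT r (Module.finrank ℚ K * U) P}.ncard : ℝ)
          ≤ C0 * Real.exp (Pool.Agent.Helper89V.ex r * (Module.finrank ℚ K * U) -
            √(Module.finrank ℚ K * U)) := h5
        _ ≤ C0 * (Real.exp (-√U) *
            Real.exp (Pool.Agent.Helper89V.ex r * (Module.finrank ℚ K * U))) :=
            mul_le_mul_of_nonneg_left h8 hC0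
        _ = Real.exp (-√U) *
            (C0 * Real.exp (Pool.Agent.Helper89V.ex r * (Module.finrank ℚ K * U))) := by ring
        _ ≤ Real.exp (-√U) * (C0 / c *
            ({P : Fin m → K[X] |
              Pool.Agent.N753.DR.HT r (Module.finrank ℚ K * U) P}.ncard : ℝ)) :=
            mul_le_mul_of_nonneg_left h9 (Real.exp_pos _).le
        _ ≤ Real.exp (-√U) * ((C1 ^ m + 1 / c + C0 / c) *
            ({P : Fin m → K[X] |
              Pool.Agent.N753.DR.HT r (Module.finrank ℚ K * U) P}.ncard : ℝ)) :=
            mul_le_mul_of_nonneg_left (mul_le_mul_of_nonneg_right h12 (Nat.cast_nonneg _))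
              (Real.exp_pos _).le
        _ = _ := by ring
  -- the inequality
  intro k _ _ _ A _ _ _ _ _ _ _ q a u y F ha hdeg hF hyF S e Q hS hQ hQe Λ ε hε
  obtain ⟨C1, hC1, hmain⟩ := Pool.Agent.Helper89V.main_ineq Pool.Agent.N395.CV.t K r E E' hcoin
    hline hEE k A q a ha hdeg u y F hF hyF S (fun p hp => (hS p hp).ne_zero) (ε / 2) (half_pos hε)
  -- the primes of `k` above `S`
  obtain ⟨n, hn⟩ : ∃ n : ℕ, n = ∏ p ∈ S, p := ⟨_, rfl⟩
  have hn0 : (n : k) ≠ 0 := by
    rw [hn, Nat.cast_ne_zero]
    exact Finset.prod_ne_zero_iff.2 fun p hp => (hS p hp).ne_zero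
  have hSk : {v : HeightOneSpectrum (𝓞 k) | ∃ p ∈ S, (p : 𝓞 k) ∈ v.asIdeal}.Finite := by
    refine (Pool.Agent.N415.DRVK.zeros_finite hn0).subset ?_
    rintro v ⟨p, hp, hpv⟩
    have h1 : (n : 𝓞 k) ∈ v.asIdeal := by
      obtain ⟨c, hc⟩ := Finset.dvd_prod_of_mem (fun p => p) hp
      rw [hn, hc, Nat.cast_mul]
      exact Ideal.mul_mem_right _ _ hpv
    have h2 := (v.valuation_lt_one_iff_mem (K := k) (n : 𝓞 k)).2 h1
    simpa using h2
  obtain ⟨C2, hC2, hpx⟩ := Pool.Agent.Helper89V.sPrk K m r E hprox k e Q hQ hQe hSk.toFinset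
    (ε / (2 * ((Λ : ℝ) + 1))) (by positivity)
  -- the tuples with `Q(x) = 0`
  have hfdk : FiniteDimensional K k := FiniteDimensional.right ℚ K k
  obtain ⟨Qt, Qh, hQt, hQth⟩ := Pool.Agent.N196.PC.exists_norm (K := K) Q hQ
  obtain ⟨C3, hC3, hzero⟩ := hprox (fun i => Qt.degreeOf i) Qt hQt (fun i => le_rfl) ∅ (by simp) 1
    one_pos
  refine ⟨C1 + Λ * C2 + C3, ?_⟩
  intro L _ _ _ _ _ P hPr hPE hPa
  have hnL : (0 : ℝ) < Module.finrank ℚ L := by exact_mod_cast Module.finrank_pos
  refine ⟨fun hPQ => ?_, fun hPQ => ?_⟩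
  · have h1 : MvPolynomial.aeval (fun i => coord (P i)) Qt = 0 := by
      have h2 : MvPolynomial.aeval (fun i => coord (P i))
          (MvPolynomial.map (algebraMap K k) Qt) =
          MvPolynomial.aeval (fun i => coord (P i)) Qt := by
        rw [MvPolynomial.aeval_map_algebraMap]
      rw [← h2, hQth, map_mul, hPQ, zero_mul]
    have h3 := (hzero L (fun i => coord (P i)) hPr hPE).2 h1
    unfold height
    rw [← Finset.sum_div, div_le_iff₀ hnL]
    have h4 : 0 ≤ (C1 + Λ * C2) * (Module.finrank ℚ L : ℝ) := by positivity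
    rw [add_mul]
    linarith
  have hΛ : (0 : ℝ) ≤ Λ := Nat.cast_nonneg Λ
  -- the counting function
  have hWf : {w : HeightOneSpectrum (𝓞 L) | (∀ p ∈ S, (p : 𝓞 L) ∉ w.asIdeal) ∧
      ∃ i, w.valuation L (coord (P i)) ≤ 1 ∧ ∃ j,
        w.valuation L (coord (P i) - algebraMap k L (a i j)) < 1 ∧
        ∀ l, w.valuation L (P i (y i j l)) < 1}.Finite := by
    refine (Set.finite_iUnion fun i => Set.finite_iUnion fun j =>
      Pool.Agent.N415.DRVK.zeros_finite (sub_ne_zero.2 (hPa i j))).subset ?_
    rintro w ⟨-, i, -, j, h, -⟩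
    exact Set.mem_iUnion.2 ⟨i, Set.mem_iUnion.2 ⟨j, h⟩⟩
  have hcount : counting S a y P =
      (∑ w ∈ hWf.toFinset, Pool.Agent.N753.DR.lN w) / Module.finrank ℚ L := by
    unfold counting
    rw [finsum_filter hWf]
    rfl
  have h1 := hmain L P hPr hPE hPa hWf.toFinset (by
    intro w h1 i h2 h3
    rw [Set.Finite.mem_toFinset]
    exact ⟨h1, i, h2, h3⟩)
  -- the proximity function
  have h2 := hpx L (fun i => coord (P i)) hPr hPE hPQ
  have hZ : (fun v : HeightOneSpectrum (𝓞 L) => ∃ p ∈ hSk.toFinset,
      v.asIdeal.comap (algebraMap (𝓞 k) (𝓞 L)) = p.asIdeal) =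
      fun v => ∃ p ∈ S, (p : 𝓞 L) ∈ v.asIdeal := by
    funext v
    refine propext ⟨?_, ?_⟩
    · rintro ⟨w, hw, hvw⟩
      rw [Set.Finite.mem_toFinset] at hw
      obtain ⟨p, hp, hpw⟩ := hw
      refine ⟨p, hp, ?_⟩
      rw [← hvw, Ideal.mem_comap, map_natCast] at hpw
      exact hpw
    · rintro ⟨p, hp, hpv⟩
      refine ⟨v.under (𝓞 k), ?_, rfl⟩
      rw [Set.Finite.mem_toFinset]
      refine ⟨p, hp, ?_⟩
      show (p : 𝓞 k) ∈ v.asIdeal.comap (algebraMap (𝓞 k) (𝓞 L))
      rw [Ideal.mem_comap, map_natCast]
      exact hpv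
  rw [hZ] at h2
  have hpr : proximity S e Q (fun i => coord (P i)) =
      Pool.Agent.N753.DR.prZ (fun v : HeightOneSpectrum (𝓞 L) => ∃ p ∈ S, (p : 𝓞 L) ∈ v.asIdeal)
        e (fun i => coord (P i)) (MvPolynomial.aeval (fun i => coord (P i)) Q) /
        Module.finrank ℚ L := by
    unfold proximity Pool.Agent.N753.DR.prZ
    congr 2
    refine finsum_congr fun v => ?_
    by_cases h : ∃ p ∈ S, (p : 𝓞 L) ∈ v.asIdeal
    · rw [if_pos h, if_pos h]
    · rw [if_neg h, if_neg h]
  set prx := Pool.Agent.N753.DR.prZ (fun v : HeightOneSpectrum (𝓞 L) =>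
    ∃ p ∈ S, (p : 𝓞 L) ∈ v.asIdeal) e (fun i => coord (P i))
      (MvPolynomial.aeval (fun i => coord (P i)) Q) with hprx
  rw [hpr, hcount]
  unfold logDisc height degree
  have hH0 : 0 ≤ ∑ i, Height.logHeight₁ (coord (P i)) :=
    Finset.sum_nonneg fun i _ => Height.zero_le_logHeight₁ _
  have h3 : (Λ : ℝ) * prx ≤ ε / 2 * ∑ i, Height.logHeight₁ (coord (P i)) +
      Module.finrank ℚ L * (Λ * C2) := by
    have h4 := mul_le_mul_of_nonneg_left h2 hΛ
    have h5 : (Λ : ℝ) * (ε / (2 * ((Λ : ℝ) + 1)) * ∑ i, Height.logHeight₁ (coord (P i))) ≤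
        ε / 2 * ∑ i, Height.logHeight₁ (coord (P i)) := by
      have h6 : (Λ : ℝ) * (ε / (2 * ((Λ : ℝ) + 1)) * ∑ i, Height.logHeight₁ (coord (P i))) =
          (Λ / ((Λ : ℝ) + 1)) * (ε / 2 * ∑ i, Height.logHeight₁ (coord (P i))) := by
        field_simp
      rw [h6]
      refine mul_le_of_le_one_left (by positivity) ?_
      rw [div_le_one (by positivity)]
      linarith
    rw [mul_add] at h4
    have h7 : (Λ : ℝ) * (Module.finrank ℚ L * C2) = Module.finrank ℚ L * (Λ * C2) := by ring
    linarith
  have e1 : ∑ i, (((q i : ℝ) - (∑ j, (Module.finrank k (A i ⧸ F i j) : ℝ)) /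
      Module.finrank k[X] (A i)) - ε) * (Height.logHeight₁ (coord (P i)) / Module.finrank ℚ L) =
      (∑ i, ((q i : ℝ) - (∑ j, (Module.finrank k (A i ⧸ F i j) : ℝ)) /
        Module.finrank k[X] (A i) - ε / 2) * Height.logHeight₁ (coord (P i)) -
        ε / 2 * ∑ i, Height.logHeight₁ (coord (P i))) / Module.finrank ℚ L := by
    rw [Finset.mul_sum, ← Finset.sum_sub_distrib, Finset.sum_div]
    exact Finset.sum_congr rfl fun i _ => by ring
  rw [e1, ← mul_div_assoc, ← add_div, ← add_div, ← sub_nonneg]
  have e2 : ∀ a b n c : ℝ, n ≠ 0 → a / n + c - b / n = (a + n * c - b) / n := by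
    intro a b n c hn
    field_simp
  rw [e2 _ _ _ _ hnL.ne']
  have hC3' : 0 ≤ (Module.finrank ℚ L : ℝ) * C3 := mul_nonneg hnL.le hC3
  refine div_nonneg ?_ hnL.le
  have h8 : ∑ i, ((q i : ℝ) - (∑ j, (Module.finrank k (A i ⧸ F i j) : ℝ)) /
        Module.finrank k[X] (A i) - ε / 2) * Height.logHeight₁ (coord (P i)) ≤
      ∑ w ∈ hWf.toFinset, Pool.Agent.N753.DR.lN w + Real.log |(discr L : ℝ)| +
        Module.finrank ℚ L * C1 := h1
  rw [mul_add, mul_add]
  linarith

end Pool.Agent.Results.MP_8865d3_nt.AllDegreesOnProducts
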