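import Pool.Agent.Results.MP_8865d3_nt.MonomialWindows
import Pool.Agent.N790.CM.C

/-!
# Vojta's conjecture with multiplier ideals above all points of height near all multiples of Carmichael's function of almost all integers

Let `a_0, …, a_{q-1}` be linear forms in `n + 1` variables over a number field `K`, any `n + 1` of them
linearly independent, `κ ≥ 0`, and let `X_m` be the Fermat intersection which lies above `ℙ^n` (the points
`(y_0 : … : y_{q-1})` with `y_i ^ m` proportional to `a_i(x)`). Let `G` have steps bounded below by a positive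
constant and growth at most `v ^ e`, for example `G v = v`, let `D ≥ 1`, `θ ≥ 0` and
`D (e exponent(n, q, κ) / (n + 1) + θ) < 1`. For every real `c`, for all `u ≤ M` but `M / (log M) ^ A` and ALL
multiples `w ≤ M ^ D` of Carmichael's function `λ(u)` (for example Euler's function `φ(u)`): for ALL points
`x ∈ ℙ^n(K)` off the hyperplanes with `|H_K(x) ^ (n + 1) - G w| ≤ w ^ θ`, ALL `m ≥ 1`, ALL points `P` of `X_m`
above `x`, over any number field `L`, ALL monomial ideals `I` and ALL finite sets `S` of primes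
`(κ m - q) h(P) + ∑_{v ∈ S ∪ {∞}} (λ_I - λ_{I⁻})(P, v) ≤ d(L) + ∑_{p ∈ S} log p - c`.
The same is true for the common multiples `w` of the numbers `f p`, `p` the large primes which divide `u`
exactly once, if `f` takes each positive value at boundedly many primes, for example `f p = |P(p)|` for a
nonconstant polynomial `P`. Some `w` are multiples of `λ(u)` for more than `M ^ (1 - δ)` of the `u ≤ M`, and so
this does not follow from the number of the exceptional points.

Proof: the starting library `N790/CM` (common multiples) and the starting theorem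
`MP_8865d3_nt.MonomialIdeals` (the number of exceptional points), in the form `MonomialWindows.count`.
-/

set_option autoImplicit false

namespace Pool.Agent.Results.MP_8865d3_nt.CarmichaelMultiples

open NumberField LinearAlgebra.Projectivization
open Pool.Agent.Results.MP_8865d3_nt.MonomialIdeals (lin baseHeight height proximity logDisc exponent
  exceptional)
open Pool.Agent.Results.MP_8865d3_nt.MonomialWindows (count expo_nonneg)
open Pool.Agent.N733.TG (Expanding expanding_pow)
open Pool.Agent.N790.CM (FewTimes Carries OnMultiples OnCarmichael fewTimes_pred fewTimes_poly keep_good)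

/-- The inequality `(κ m - q) h(P) + ∑_{v ∈ S ∪ {∞}} (λ_I - λ_{I⁻})(P, v) ≤ d(L) + ∑_{p ∈ S} log p - c` for
ALL `m ≥ 1`, ALL points `P` of `X_m` above `x`, over any number field `L`, ALL monomial ideals `I` and ALL
finite sets `S` of primes. -/
def VojtaAbove {K : Type} [Field K] [NumberField K] {n q : ℕ} (a : Fin q → Fin (n + 1) → K)
    (κ c : ℝ) (x : ℙ K (Fin (n + 1) → K)) : Prop :=
  ∀ (m : ℕ) (L : Type) [Field L] [NumberField L] [Algebra K L] (y : Fin q → L) (t : L)
    (I : Finset (Fin q → ℕ)) (S : Finset ℕ), 1 ≤ m → t ≠ 0 →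
    (∀ i, y i ^ m = t * algebraMap K L (lin (a i) x.rep)) → I.Nonempty → (∀ p ∈ S, p.Prime) →
      (κ * m - q) * height y + proximity S y I ≤ logDisc L + ∑ p ∈ S, Real.log p - c

/-- **Vojta's conjecture with multiplier ideals above the points of height near all multiples of Carmichael's
function.** Let `K` be a number field, `n ≥ 1`, `q ≥ n + 1`, `a_0, …, a_{q-1}` linear forms in `n + 1` variables
over `K`, any `n + 1` of them linearly independent, `κ ≥ 0` and `c` real. Let `G` have steps `≥ a > 0` and growth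
at most `v ^ e`, `D ≥ 1`, `θ ≥ 0` and `D (e exponent(n, q, κ) / (n + 1) + θ) < 1`. For all `u ≤ M` but
`M / (log M) ^ A` and ALL multiples `w ≤ M ^ D` of `λ(u)`, and also for all common multiples `w ≤ M ^ D` of the
numbers `f p`, `p > exp (√(log M))` a prime which divides `u` exactly once, `f` any function which takes each
positive value at boundedly many primes, for ALL `x ∈ ℙ^n(K)` off the hyperplanes with
`|H_K(x) ^ (n + 1) - G w| ≤ w ^ θ` the inequality of the conjecture holds above `x` (`VojtaAbove a κ c x`).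
Examples of `f` are `p - 1` and `|P(p)|`, `P` a nonconstant polynomial, and `α v ^ e` with `α > 0`, `e ≥ 1` is an
example of `G`. -/
theorem result :
    (∀ (K : Type) [Field K] [NumberField K] (n q : ℕ), 1 ≤ n → n + 1 ≤ q →
      ∀ a : Fin q → Fin (n + 1) → K,
      (∀ I : Finset (Fin q), I.card = n + 1 → LinearIndependent K (fun i : I => a i)) →
      ∀ κ c : ℝ, 0 ≤ κ → ∀ (G : ℕ → ℝ) (e : ℝ), Expanding G e → ∀ θ D : ℝ, 0 ≤ θ → 1 ≤ D →
      D * (e * (exponent n q κ / (n + 1)) + θ) < 1 →
      OnMultiples D (fun w => ∀ x : ℙ K (Fin (n + 1) → K), (∀ i, lin (a i) x.rep ≠ 0) →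
        |x.mulHeight ^ (n + 1) - G w| ≤ (w : ℝ) ^ θ → VojtaAbove a κ c x) ∧
      OnCarmichael D (fun w => ∀ x : ℙ K (Fin (n + 1) → K), (∀ i, lin (a i) x.rep ≠ 0) →
        |x.mulHeight ^ (n + 1) - G w| ≤ (w : ℝ) ^ θ → VojtaAbove a κ c x)) ∧
    (FewTimes (fun p => p - 1) 1 ∧
      (∀ P : Polynomial ℤ, 1 ≤ P.natDegree →
        FewTimes (fun p => (P.eval (p : ℤ)).natAbs) (2 * P.natDegree)) ∧
      ∀ α e : ℝ, 0 < α → 1 ≤ e → Expanding (fun v => α * (v : ℝ) ^ e) e) := by
  refine ⟨?_, fewTimes_pred, fun P hP => fewTimes_poly P hP, fun α e hα he => expanding_pow hα he⟩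
  intro K _ _ n q hn hq a ha κ c hκ G e hG θ D hθ hD h1
  have hs : 0 ≤ exponent n q κ / (n + 1) := div_nonneg (expo_nonneg hn hq hκ) (by positivity)
  have key : OnMultiples D (fun w => ∀ x : ℙ K (Fin (n + 1) → K), (∀ i, lin (a i) x.rep ≠ 0) →
      |x.mulHeight ^ (n + 1) - G w| ≤ (w : ℝ) ^ θ → VojtaAbove a κ c x) := by
    refine keep_good (fun x : ℙ K (Fin (n + 1) → K) => ∀ i, lin (a i) x.rep ≠ 0) (VojtaAbove a κ c)
      (fun x => x.mulHeight ^ (n + 1)) hG (s := exponent n q κ / (n + 1)) (κ := θ) (B := D) hs hθ hD h1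
      (fun ε hε => ?_)
    obtain ⟨C, hC⟩ := count K hn hq a ha κ (-c) ε hκ hε
    refine ⟨C, fun X hX => ?_⟩
    have e1 : {x : ℙ K (Fin (n + 1) → K) | ((∀ i, lin (a i) x.rep ≠ 0) ∧ ¬ VojtaAbove a κ c x) ∧
        x.mulHeight ^ (n + 1) ≤ X} ⊆
        {x | x ∈ (⋃ B : ℝ, exceptional a κ (-c) B) ∧ x.mulHeight ^ (n + 1) ≤ X} := by
      rintro x ⟨⟨h2, h3⟩, h4⟩
      refine ⟨?_, h4⟩
      unfold VojtaAbove at h3
      push Not at h3
      obtain ⟨m, L, i1, i2, i3, y, t, I, S, hm, ht, hy, hI, hS, h5⟩ := h3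
      exact Set.mem_iUnion.2 ⟨Real.exp (baseHeight x), h2, le_refl _, m, L, i1, i2, i3, y, t, I, S, hm, ht,
        hy, hI, hS, by linarith⟩
    obtain ⟨hf, hc⟩ := hC X hX
    refine ⟨hf.subset e1, le_trans ?_ hc⟩
    exact_mod_cast Set.ncard_le_ncard e1 hf
  exact ⟨key, key.carmichael⟩

end Pool.Agent.Results.MP_8865d3_nt.CarmichaelMultiples
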