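import Pool.Agent.N395.CV.KeyB
import Pool.Agent.Helper89V.CV4
import Pool.Agent.Helper89V.CV5

/-!
# Vojta's inequality with all ideals on all covers of any curve, above almost all members of linear
systems of divisors

Let `C` be a smooth projective curve over a number field `K` (geometrically irreducible) and `t` a
nonconstant function of degree `N` on `C` with `s_∞` poles. Its functions with poles only at the
poles of `t` form the ring `A`, free of rank `N` over `K[t]`, with a basis `e_1 = 1, …, e_N`. The
functions `∑ c_{jk} t^k e_j`, `j ≤ N`, `k ≤ n`, are a linear system of dimension `N (n + 1)` and of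
degree about `N n`. By Hilbert's irreducibility theorem the zeros of almost all members are one
closed point `c` of `C`, with residue field `M` of degree about `N n` over `K`. For each `n ≥ 2` we
construct ONE set `E` of members, of density zero, more precisely at most `C exp(-√U)` times the
number of the members of height at most `U`, which is exceptional for all of the following at once.

- All smooth projective curves `X` over number fields `k ⊇ K` with a finite map `ρ` to `C`, ramified
  only above the poles of `t` and above closed points `c_1, …, c_q` of `C` of degree at most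
  `2 n + 1` over `K`, `q` arbitrary.
- All nonzero ideal sheaves `I` on `X` and all finite sets `S` of places.
- All reduced divisors `D = ∑ D_j`, `D_j` a part of the fibre of `ρ` over `c_j`.

Let `P` be ANY point of `X` above the point `c` of a member which is not in `E`. Then, with
`x = t(P)`,
`((2 g(X) - 2 + s'_∞ + deg D) / N' - (2 g(C) - 2 + s_∞) / N - ε) h(x) + d(c) + Λ m_S(p, x)
  ≤ d(P) + N_S^{(1)}(D, P) + O(1)`
with `N' = deg (t : X → ℙ¹)` and `s'_∞` the number of poles of `t` on `X`. Here
`h(x) / N' ` is the height of `P` with respect to divisors of degree one, so that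
`(2 g(X) - 2 + s'_∞ + deg D) / N' h(x)` is `h_{K_X}(P) + h_D(P) + h_∞(P)` up to `ε h`. Moreover
`d(c) ≥ γ n / (log n)² h(x) - O(1)` with a constant `γ > 0` which depends only on `C` and `t`, so
`d(c)` is larger than `(2 g(C) - 2 + s_∞) / N h(x)` if `n` is large, and we get for all `P` above all
`c` not in `E`
`h_{K_X}(P) + h_D(P) + h_∞(P) + Λ m_S(p, x) ≤ d(P) + N_S^{(1)}(D, P) + ε h(P) + O(1)`.

**The ideals.** If `V(I)` does not meet the poles of `t`, then `p(t)^l` is locally in `I` for some
monic polynomial `p` over `K` and some `l`, so `∑ λ_I(P, v) ≤ l m_S(p, x) + O(1)`. At the poles of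
`t` the difference of `λ_I` and `λ_{I⁻}` is at most the local height of the reduced divisor, and the
height `h_∞` of the sum of the poles is on the left side. So this is Q1 with all ideals `I` for all
`P` above all members not in `E`.

**The data.** `A'` is the ring of the functions on `X` with poles only at the poles of `t`, `π` is
composition with `ρ`, the `g_{j1}, g_{j2}, …` are generators of the maximal ideal of `c_j`, the
`y_{j1}, y_{j2}, …` are generators of the ideal of `D_j` and `F_j` is the ideal of the rest of the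
reduced fibre over `c_j`, so that `y f ∈ √(c_j)` for `y` in the ideal of `D_j` and `f ∈ F_j`. By the
formula of Riemann and Hurwitz (for `X → C`) the number `degree` below is
`(2 g(X) - 2 + s'_∞ + deg D) / N' - (2 g(C) - 2 + s_∞) / N` if `ρ` is unramified outside the poles of
`t` and the `c_j`.

Proof. (1) The norm of a member modulo `c_j` is an incomplete norm form in `N (n + 1)` variables of
degree at most `2 n + 1`, whose values are rarely divisible by many squares: so `c` meets the `c_j`
at primes of `M` with a large radical. (2) The number of fields of degree `r` with small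
discriminant is small, and each contains few values of the functions in `A`: so `d(c)` is large.
(3) The proximity function of `p = 0` is rarely large: norms modulo `p(t)`. (4) `h(x)` is rarely
small compared to the height of the member. (5) One exceptional set for the countably many
conditions. (6) Base change from `M` to `L`, where the primes near `c_j` are ramified unless `P` is
near `D_j` or near `F_j`, and the product formula for a function with a zero of high order along
`F_j`.

For the line (`C = ℙ¹`, `N = 1`) and the products of lines see `AllDegreesOnProducts`.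
-/

set_option autoImplicit false

namespace Pool.Agent.Results.MP_8865d3_nt.LinearSystemsOnCurves

open Polynomial IsDedekindDomain NumberField
open scoped LinearAlgebra.Projectivization

/-- The absolute logarithmic height of `x ∈ L`. -/
noncomputable def height {L : Type} [Field L] [NumberField L] (x : L) : ℝ :=
  Height.logHeight₁ x / Module.finrank ℚ L

/-- The (absolute) logarithmic discriminant `d(L) = log |disc L| / [L : ℚ]`. -/
noncomputable def logDisc (L : Type) [Field L] [NumberField L] : ℝ :=
  Real.log |(NumberField.discr L : ℝ)| / Module.finrank ℚ L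

/-- The function `∑_{j < N, k ≤ n} c_{jk} t^k e_j` (the pairs `(j, k)` are numbered by
`finProdFinEquiv`). -/
noncomputable def member {K A : Type} [Field K] [CommRing A] [Algebra K A] [Algebra K[X] A]
    {N n : ℕ} (e : Fin N → A) (c : Fin (N * (n + 1)) → K) : A :=
  ∑ i, c i • ((X : K[X]) ^ ((finProdFinEquiv.symm i).2 : ℕ) • e (finProdFinEquiv.symm i).1)

/-- The points of the projective space of absolute height at most `U`. -/
def points (K : Type) [Field K] [NumberField K] (m : ℕ) (U : ℝ) : Set (ℙ K (Fin m → K)) :=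
  {P | Height.logHeight P.rep / Module.finrank ℚ K ≤ U}

/-- The value `t(P)` of the function `t`. -/
noncomputable def coord {K A : Type} [Field K] [CommRing A] [Algebra K A] [Algebra K[X] A]
    {L : Type} [Field L] [Algebra K L] (P : A →ₐ[K] L) : L := P (algebraMap K[X] A X)

/-- `(∑_j dim (A / I_j)) / N - (∑_j dim (A' / F_j)) / N'`, where `N` and `N'` are the ranks of `A` and
`A'` over `K[t]`. -/
noncomputable def degree (K : Type) {A A' : Type} [Field K] [CommRing A] [Algebra K A]
    [Algebra K[X] A] [CommRing A'] [Algebra K A'] [Algebra K[X] A'] {q : ℕ} (I : Fin q → Ideal A)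
    (F : Fin q → Ideal A') : ℝ :=
  (∑ j, (Module.finrank K (A ⧸ I j) : ℝ)) / (Module.finrank K[X] A : ℝ) -
    (∑ j, (Module.finrank K (A' ⧸ F j) : ℝ)) / (Module.finrank K[X] A' : ℝ)

open Classical in
/-- The sum of the local heights `log (max (|x|, 1) ^ deg p / |p(x)|)` of `p = 0` over the infinite
places (with the multiplicities `[M_w : ℝ]`) and the primes above the primes of `S`, divided by
`[M : ℚ]`. The absolute values are normalised so that the product formula holds. -/
noncomputable def proximity {K M : Type} [Field K] [Field M] [NumberField M] [Algebra K M]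
    (S : Finset ℕ) (p : K[X]) (x : M) : ℝ :=
  (∑ w : InfinitePlace M, (w.mult : ℝ) *
      Real.log (max (w x) 1 ^ p.natDegree / w (aeval x p)) +
    ∑ᶠ v : HeightOneSpectrum (𝓞 M), if ∃ l ∈ S, (l : 𝓞 M) ∈ v.asIdeal then
      Real.log (max (FinitePlace.mk v x) 1 ^ p.natDegree / FinitePlace.mk v (aeval x p))
        else 0) / Module.finrank ℚ M

open Classical in
/-- The truncated counting function: the sum of `log N(w)` over the primes `w` of `L`, not above the
primes of `S`, at which `t(P)` is integral and for some `j` all the functions `g_{jl}` and all the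
functions `y_{ji}` vanish at the reduction of `P`, divided by `[L : ℚ]`. -/
noncomputable def counting {K A A' : Type} [Field K] [CommRing A] [Algebra K[X] A]
    [CommRing A'] [Algebra K A'] [Algebra K[X] A'] (S : Finset ℕ) (π : A →ₐ[K[X]] A') {q : ℕ}
    {u v : Fin q → ℕ} (g : ∀ j, Fin (u j) → A) (y : ∀ j, Fin (v j) → A')
    {L : Type} [Field L] [NumberField L] [Algebra K L] (P : A' →ₐ[K] L) : ℝ :=
  (∑ᶠ w : HeightOneSpectrum (𝓞 L), if (∀ l ∈ S, (l : 𝓞 L) ∉ w.asIdeal) ∧
      w.valuation L (coord P) ≤ 1 ∧ ∃ j, (∀ l, w.valuation L (P (π (g j l))) < 1) ∧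
        ∀ i, w.valuation L (P (y j i)) < 1
    then Real.log (Ideal.absNorm w.asIdeal) else 0) / Module.finrank ℚ L

/-- a finite sum is the finsum -/
theorem finsum_filter {ι : Type} {p : ι → Prop} [DecidablePred p] (hp : {i | p i}.Finite)
    (f : ι → ℝ) : ∑ᶠ i, (if p i then f i else 0) = ∑ i ∈ hp.toFinset, f i := by
  rw [finsum_eq_sum_of_support_subset (s := hp.toFinset)]
  · refine Finset.sum_congr rfl fun i hi => ?_
    rw [Set.Finite.mem_toFinset] at hi
    exact if_pos hi
  · intro i hi
    rw [Function.mem_support] at hi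
    rw [Finset.mem_coe, Set.Finite.mem_toFinset]
    by_contra h
    exact hi (if_neg h)

/-- the number of the points of projective space -/
theorem card_points (K : Type) [Field K] [NumberField K] (m : ℕ) (hm : 2 ≤ m) :
    ∃ c U₀ : ℝ, 0 < c ∧ ∀ U : ℝ, U₀ ≤ U →
      {P : ℙ K (Fin m → K) | Height.logHeight P.rep ≤ U}.Finite ∧
      c * Real.exp (m * U) ≤
        ({P : ℙ K (Fin m → K) | Height.logHeight P.rep ≤ U}.ncard : ℝ) := by
  obtain ⟨r, rfl⟩ : ∃ r, m = r + 1 := ⟨m - 1, by omega⟩
  obtain ⟨c, U₀, hc, h⟩ := Pool.Agent.Helper89V.low_proj K r (by omega)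
  refine ⟨c, U₀, hc, fun U hU => ?_⟩
  have h1 := h U hU
  push_cast
  exact h1

/-- the density of the exceptional set -/
theorem density (K : Type) [Field K] [NumberField K] (m : ℕ) (hm : 2 ≤ m)
    (E : Set (ℙ K (Fin m → K))) (CE : ℝ) (hCE : 0 ≤ CE)
    (hE : ∀ U : ℝ, 0 ≤ U → {P : ℙ K (Fin m → K) | P ∈ E ∧ Height.logHeight P.rep ≤ U}.Finite ∧
      ({P : ℙ K (Fin m → K) | P ∈ E ∧ Height.logHeight P.rep ≤ U}.ncard : ℝ) ≤
        CE * Real.exp ((m : ℝ) * U - √U)) :
    ∃ C U₀ : ℝ, ∀ U : ℝ, U₀ ≤ U → (points K m U).Finite ∧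
      ((E ∩ points K m U).ncard : ℝ) ≤
        C * Real.exp (-√U) * ((points K m U).ncard : ℝ) := by
  have hd1 : (1 : ℝ) ≤ Module.finrank ℚ K := by
    exact_mod_cast (Module.finrank_pos (R := ℚ) (M := K))
  have hd : (0 : ℝ) < Module.finrank ℚ K := by linarith
  obtain ⟨c, U₀, hc, h⟩ := card_points K m hm
  refine ⟨CE / c, max 0 (U₀ / Module.finrank ℚ K), fun U hU => ?_⟩
  have hU0 : 0 ≤ U := (le_max_left _ _).trans hU
  have hUT : U₀ ≤ U * Module.finrank ℚ K := by
    have := (le_max_right _ _).trans hU
    rw [div_le_iff₀ hd] at this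
    exact this
  have hT0 : 0 ≤ U * (Module.finrank ℚ K : ℝ) := by positivity
  have e1 : points K m U =
      {P : ℙ K (Fin m → K) | Height.logHeight P.rep ≤ U * Module.finrank ℚ K} := by
    ext P
    show Height.logHeight P.rep / Module.finrank ℚ K ≤ U ↔
      Height.logHeight P.rep ≤ U * Module.finrank ℚ K
    exact div_le_iff₀ hd
  have e2 : E ∩ points K m U =
      {P : ℙ K (Fin m → K) | P ∈ E ∧ Height.logHeight P.rep ≤ U * Module.finrank ℚ K} := by
    rw [e1]
    rfl
  obtain ⟨h1, h2⟩ := h _ hUT
  obtain ⟨-, h3⟩ := hE _ hT0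
  rw [e2, e1]
  refine ⟨h1, h3.trans ?_⟩
  set T : ℝ := U * Module.finrank ℚ K with hT
  have h4 : √U ≤ √T := Real.sqrt_le_sqrt (by nlinarith)
  have h5 : Real.exp ((m : ℝ) * T - √T) ≤ Real.exp (-√U) * Real.exp ((m : ℝ) * T) := by
    rw [← Real.exp_add]
    exact Real.exp_le_exp.2 (by linarith)
  have h6 : Real.exp ((m : ℝ) * T) ≤
      1 / c * ({P : ℙ K (Fin m → K) | Height.logHeight P.rep ≤ T}.ncard : ℝ) := by
    have h7 := mul_le_mul_of_nonneg_left h2 (show 0 ≤ 1 / c by positivity)
    have h8 : 1 / c * (c * Real.exp ((m : ℝ) * T)) = Real.exp ((m : ℝ) * T) := by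
      field_simp
    rw [h8] at h7
    exact h7
  calc CE * Real.exp ((m : ℝ) * T - √T) ≤
      CE * (Real.exp (-√U) * (1 / c *
        ({P : ℙ K (Fin m → K) | Height.logHeight P.rep ≤ T}.ncard : ℝ))) :=
        mul_le_mul_of_nonneg_left (h5.trans (mul_le_mul_of_nonneg_left h6 (Real.exp_pos _).le)) hCE
    _ = _ := by ring

/-- **Vojta's inequality with all ideals on all covers of a curve.** Let `K` be a number field and
`A` a domain, finite over `K[t]` and containing it, with a basis `e_1, …, e_N` over `K[t]` which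
contains `1`, and geometrically integral over `K` (the ring of functions of an affine curve over `K`
which is finite over the `t`-line). There is `γ > 0` such that for each `n ≥ 2` there is ONE set `E`
of points `c` of the projective space over `K` with the coordinates `c_{jk}`, `j < N`, `k ≤ n`, such
that

(1) at most `C exp(-√U)` times the number of points of absolute height at most `U` are in `E`, for
large `U`;

(2) for all Dedekind domains `A'`, finite over `K[t]` and containing it, all `π : A → A'` over
`K[t]`, all finite families of generators `g_j` of distinct maximal ideals of `A` of degree at most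
`2 n + 1` over `K`, all elements `y_{ji}` and nonzero ideals `F_j` of `A'` with
`y_{ji} F_j ⊆ √(π(g_j))`, all finite sets `S` of primes, all monic polynomials `p` over `K`, all `Λ`
and all `ε > 0` there is a constant `c₀` such that for all number fields `M ⊇ K`, all points
`φ : A → M` with residue field `M` (surjective) whose ideal is generated by a member
`∑ c_{jk} t^k e_j`, `c ∉ E`, and is not one of the `(g_j)`, with `x = t(φ)`:
`γ n / (log n)² h(x) ≤ d(M) + c₀`, `h(x) ≤ c₀` if `p(x) = 0`, and if `p(x) ≠ 0`, for all number fields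
`L ⊇ M` and all points `P : A' → L` above `φ`
`((∑_j dim (A / (g_j))) / N - (∑_j dim (A' / F_j)) / N' - ε) h(x) + d(M) + Λ m_S(p, x) ≤
  d(L) + N_S^{(1)}(P) + c₀`. -/
theorem result (K A : Type) [Field K] [NumberField K] [CommRing A] [IsDomain A] [Algebra K A]
    [Algebra K[X] A] [IsScalarTower K K[X] A] [Module.Finite K[X] A] [FaithfulSMul K[X] A]
    (hA : IsDomain (TensorProduct K (AlgebraicClosure K) A)) (N : ℕ)
    (e : Module.Basis (Fin N) K[X] A) (he : ∃ i, e i = 1) :
    ∃ γ : ℝ, 0 < γ ∧ ∀ n : ℕ, 2 ≤ n → ∃ E : Set (ℙ K (Fin (N * (n + 1)) → K)),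
      (∃ C U₀ : ℝ, ∀ U : ℝ, U₀ ≤ U → (points K (N * (n + 1)) U).Finite ∧
        ((E ∩ points K (N * (n + 1)) U).ncard : ℝ) ≤
          C * Real.exp (-√U) * ((points K (N * (n + 1)) U).ncard : ℝ)) ∧
      ∀ (A' : Type) [CommRing A'] [IsDedekindDomain A'] [Algebra K A'] [Algebra K[X] A']
        [IsScalarTower K K[X] A'] [Module.Finite K[X] A'] [FaithfulSMul K[X] A']
        (π : A →ₐ[K[X]] A') (q : ℕ) (u v : Fin q → ℕ) (g : ∀ j, Fin (u j) → A)
        (y : ∀ j, Fin (v j) → A') (F : Fin q → Ideal A'),
        (∀ j, (Ideal.span (Set.range (g j))).IsMaximal) →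
        (∀ i j, i ≠ j → Ideal.span (Set.range (g i)) ≠ Ideal.span (Set.range (g j))) →
        (∀ j, Module.finrank K (A ⧸ Ideal.span (Set.range (g j))) ≤ 2 * n + 1) →
        (∀ j, F j ≠ ⊥) →
        (∀ j i, ∀ f ∈ F j, y j i * f ∈ (Ideal.span (Set.range fun l => π (g j l))).radical) →
        ∀ S : Finset ℕ, (∀ l ∈ S, l.Prime) → ∀ p : K[X], p.Monic → ∀ (Λ : ℕ) (ε : ℝ), 0 < ε →
        ∃ c₀ : ℝ, ∀ (M : Type) [Field M] [NumberField M] [Algebra K M] (φ : A →ₐ[K] M)
          (c : ℙ K (Fin (N * (n + 1)) → K)), c ∉ E → Function.Surjective φ →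
          RingHom.ker φ = Ideal.span {member e c.rep} →
          (∀ j, RingHom.ker φ ≠ Ideal.span (Set.range (g j))) →
          γ * n / (Real.log n) ^ 2 * height (coord φ) ≤ logDisc M + c₀ ∧
          (aeval (coord φ) p = 0 → height (coord φ) ≤ c₀) ∧
          (aeval (coord φ) p ≠ 0 →
            ∀ (L : Type) [Field L] [NumberField L] [Algebra K L] [Algebra M L]
              [IsScalarTower K M L] (P : A' →ₐ[K] L), (∀ b, P (π b) = algebraMap M L (φ b)) →
            (degree K (fun j => Ideal.span (Set.range (g j))) F - ε) * height (coord φ) +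
                logDisc M + Λ * proximity S p (coord φ) ≤
              logDisc L + counting S π g y P + c₀) := by
  classical
  have hN1 : 1 ≤ N := by
    obtain ⟨i, -⟩ := he
    exact Nat.one_le_iff_ne_zero.2 fun h => by subst h; exact i.elim0
  have hfrN : 0 < Module.finrank K[X] A := by
    rw [Module.finrank_eq_card_basis e, Fintype.card_fin]
    omega
  obtain ⟨γ, hγ, hlin⟩ := Pool.Agent.Helper89V.exists_lin hA e he
  obtain ⟨n0, hVn⟩ := Pool.Agent.N776.CV.tVnC K A N e he
  refine ⟨γ, hγ, fun n hn => ?_⟩
  obtain ⟨E, ⟨CE, hCE, hE⟩, htr, hbd, ⟨Ch, hht⟩, ⟨Cl, hCl, hlow⟩, hprox, hdisc⟩ :=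
    hlin n (by omega)
  obtain ⟨Cd, hCd⟩ := hdisc hn
  refine ⟨E, ?_, ?_⟩
  · -- the density
    have h2 : 2 ≤ N * (n + 1) := by nlinarith
    exact density K (N * (n + 1)) h2 E CE hCE hE
  intro A' _ _ _ _ _ _ _ π q u v g y F hmax hne hdeg hF hyF S hS p hp Λ ε hε
  have hwide : ∀ j, ∃ (L : Type) (_ : Field L) (_ : NumberField L) (_ : Algebra K L)
      (ψ : A →ₐ[K] L), Function.Surjective ψ ∧ RingHom.ker ψ = Ideal.span (Set.range (g j)) ∧
        Pool.Agent.N753.DR.Wide K (fun i => ψ (Pool.Agent.N753.DR.Vn (K := K) e n i)) := by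
    intro j
    obtain ⟨L, i1, i2, i3, ψ, h1, h2, h3⟩ := Pool.Agent.Helper89V.residue_field K _ (hmax j)
    exact ⟨L, i1, i2, i3, ψ, h1, h2, (hVn n (by omega)).2.1 L ψ h1 (by rw [h3]; exact hdeg j)⟩
  obtain ⟨C1, hC1, hmain⟩ := Pool.Agent.Helper89V.cv_ineq Pool.Agent.N395.CV.t
    (Pool.Agent.N753.DR.Vn (K := K) e n) E htr hbd hht hfrN A' π q u v g y F hF hyF hmax hne hwide
    S (fun l hl => (hS l hl).ne_zero) (ε / 2) (half_pos hε)
  obtain ⟨C2, hC2⟩ := hprox p hp S hS (ε / (2 * ((Λ : ℝ) + 1))) (by positivity)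
  obtain ⟨C3, hC3, hzero⟩ := hbd p hp.ne_zero
  refine ⟨|Cd| + C1 + Λ * |C2| + (Module.finrank K[X] A * C3 + |Ch|), ?_⟩
  intro M _ _ _ φ c hcE hφ hker hkne
  have hker' : RingHom.ker φ = Ideal.span {Pool.Agent.N753.DR.mem
      (Pool.Agent.N753.DR.Vn (K := K) e n) c.rep} := hker
  have hM1 : (1 : ℝ) ≤ Module.finrank ℚ M := by
    exact_mod_cast (Module.finrank_pos (R := ℚ) (M := M))
  have hM : (0 : ℝ) < Module.finrank ℚ M := by linarith
  have hΛ : (0 : ℝ) ≤ Λ := Nat.cast_nonneg Λ
  have hn1 : (0 : ℝ) ≤ Module.finrank K[X] A := Nat.cast_nonneg _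
  have hh0 : 0 ≤ Height.logHeight₁ (coord φ) := Height.zero_le_logHeight₁ _
  refine ⟨?_, fun hz => ?_, fun hz => ?_⟩
  · have h1 := hCd M φ c hcE hφ hker'
    unfold height logDisc
    have h2 : γ * n / (Real.log n) ^ 2 * Height.logHeight₁ (coord φ) ≤
        Real.log |(discr M : ℝ)| + |Cd| := h1.trans (by linarith [le_abs_self Cd])
    have h3 : γ * n / (Real.log n) ^ 2 * (Height.logHeight₁ (coord φ) / Module.finrank ℚ M) =
        γ * n / (Real.log n) ^ 2 * Height.logHeight₁ (coord φ) / Module.finrank ℚ M := by ring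
    rw [h3, div_le_iff₀ hM, add_mul, div_mul_cancel₀ _ hM.ne']
    refine h2.trans ?_
    have h4 : |Cd| ≤ (|Cd| + C1 + Λ * |C2| + (Module.finrank K[X] A * C3 + |Ch|)) *
        Module.finrank ℚ M := by
      have h5 : 0 ≤ C1 + Λ * |C2| + (Module.finrank K[X] A * C3 + |Ch|) := by positivity
      nlinarith [abs_nonneg Cd]
    linarith
  · have h1 := hzero M φ c hcE hφ hker' hz
    have h2 := hht M φ c hφ hker'
    have h3 := mul_le_mul_of_nonneg_left h1 hn1
    unfold height
    rw [div_le_iff₀ hM]
    have h4 : Height.logHeight₁ (coord φ) ≤ Module.finrank K[X] A * C3 + |Ch| :=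
      h2.trans (by linarith [le_abs_self Ch])
    refine h4.trans ?_
    have h5 : 0 ≤ |Cd| + C1 + Λ * |C2| := by positivity
    have h6 : 0 ≤ Module.finrank K[X] A * C3 + |Ch| := by positivity
    nlinarith
  intro L _ _ _ _ _ P hP
  have hL : (0 : ℝ) < Module.finrank ℚ L := by
    exact_mod_cast (Module.finrank_pos (R := ℚ) (M := L))
  have hML : (0 : ℝ) < Module.finrank M L := by
    have hfdML : FiniteDimensional M L := FiniteDimensional.right ℚ M L
    exact_mod_cast (Module.finrank_pos (R := M) (M := L))
  have hmul : (Module.finrank M L : ℝ) * Module.finrank ℚ M = Module.finrank ℚ L := by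
    rw [mul_comm]
    exact_mod_cast Module.finrank_mul_finrank ℚ M L
  -- the counting function
  have hWf : {w : HeightOneSpectrum (𝓞 L) | (∀ l ∈ S, (l : 𝓞 L) ∉ w.asIdeal) ∧
      w.valuation L (coord P) ≤ 1 ∧ ∃ j, (∀ l, w.valuation L (P (π (g j l))) < 1) ∧
        ∀ i, w.valuation L (P (y j i)) < 1}.Finite := by
    have hex : ∀ j, ∃ l, P (π (g j l)) ≠ 0 := by
      intro j
      by_contra hcon
      push Not at hcon
      apply hkne j
      refine ((hmax j).eq_of_le (RingHom.ker_ne_top _) ?_).symm
      rw [Ideal.span_le]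
      rintro _ ⟨l, rfl⟩
      have h1 := hcon l
      rw [hP] at h1
      exact (map_eq_zero (algebraMap M L)).1 h1
    choose l0 hl0 using hex
    refine (Set.finite_iUnion fun j => Pool.Agent.N415.DRVK.zeros_finite (hl0 j)).subset ?_
    rintro w ⟨-, -, j, h, -⟩
    exact Set.mem_iUnion.2 ⟨j, h (l0 j)⟩
  have hcount : counting S π g y P =
      (∑ w ∈ hWf.toFinset, Pool.Agent.N753.DR.lN w) / Module.finrank ℚ L := by
    unfold counting
    rw [finsum_filter hWf]
    rfl
  have h1 := hmain M φ c hcE hφ hker' hkne L P hP hWf.toFinset (by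
    intro w h1 h2 h3
    rw [Set.Finite.mem_toFinset]
    exact ⟨h1, h2, h3⟩)
  have h2 := hC2 M φ c hcE hφ hker' hz
  have hpr : proximity S p (coord φ) =
      Pool.Agent.N751.CV.prox S p (coord φ) / Module.finrank ℚ M := rfl
  have h3 : (Λ : ℝ) * Pool.Agent.N751.CV.prox S p (coord φ) ≤
      ε / 2 * Height.logHeight₁ (coord φ) + Λ * |C2| := by
    have h4 : (Λ : ℝ) * Pool.Agent.N751.CV.prox S p (coord φ) ≤
        Λ * (ε / (2 * ((Λ : ℝ) + 1)) * Height.logHeight₁ (coord φ) + |C2|) :=
      mul_le_mul_of_nonneg_left (h2.trans (by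
        have := le_abs_self C2
        have e0 : Height.logHeight₁ (coord φ) =
          Height.logHeight₁ (φ (algebraMap K[X] A X)) := rfl
        rw [e0]
        linarith)) hΛ
    have h5 : (Λ : ℝ) * (ε / (2 * ((Λ : ℝ) + 1)) * Height.logHeight₁ (coord φ)) ≤
        ε / 2 * Height.logHeight₁ (coord φ) := by
      have h6 : (Λ : ℝ) * (ε / (2 * ((Λ : ℝ) + 1)) * Height.logHeight₁ (coord φ)) =
          (Λ / ((Λ : ℝ) + 1)) * (ε / 2 * Height.logHeight₁ (coord φ)) := by
        field_simp
      rw [h6]
      refine mul_le_of_le_one_left (by positivity) ?_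
      rw [div_le_one (by positivity)]
      linarith
    rw [mul_add] at h4
    linarith
  set dd : ℝ := degree K (fun j => Ideal.span (Set.range (g j))) F with hdd
  have h1' : (Module.finrank M L : ℝ) * ((dd - ε / 2) * Height.logHeight₁ (coord φ) +
      Real.log |(discr M : ℝ)|) ≤ ∑ w ∈ hWf.toFinset, Pool.Agent.N753.DR.lN w +
        Real.log |(discr L : ℝ)| + Module.finrank ℚ L * C1 := h1
  rw [hcount, hpr]
  unfold height logDisc
  set h := Height.logHeight₁ (coord φ) with hh
  set px := Pool.Agent.N751.CV.prox S p (coord φ) with hpx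
  have e1 : (dd - ε) * (h / Module.finrank ℚ M) + Real.log |(discr M : ℝ)| / Module.finrank ℚ M +
      Λ * (px / Module.finrank ℚ M) =
      (Module.finrank M L * ((dd - ε) * h + Real.log |(discr M : ℝ)| + Λ * px)) /
        Module.finrank ℚ L := by
    rw [← hmul]
    field_simp
  have e2 : Real.log |(discr L : ℝ)| / Module.finrank ℚ L +
      (∑ w ∈ hWf.toFinset, Pool.Agent.N753.DR.lN w) / Module.finrank ℚ L +
      (|Cd| + C1 + Λ * |C2| + (Module.finrank K[X] A * C3 + |Ch|)) =
      (Real.log |(discr L : ℝ)| + ∑ w ∈ hWf.toFinset, Pool.Agent.N753.DR.lN w +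
        Module.finrank ℚ L *
          (|Cd| + C1 + Λ * |C2| + (Module.finrank K[X] A * C3 + |Ch|))) / Module.finrank ℚ L := by
    field_simp
  rw [e1, e2]
  refine div_le_div_of_nonneg_right ?_ hL.le
  have h4 := mul_le_mul_of_nonneg_left h3 hML.le
  have h5 : (Module.finrank M L : ℝ) * (Λ * |C2|) ≤ Module.finrank ℚ L * (Λ * |C2|) := by
    refine mul_le_mul_of_nonneg_right ?_ (by positivity)
    rw [← hmul]
    nlinarith
  have h6 : 0 ≤ (Module.finrank ℚ L : ℝ) * |Cd| := by positivity
  have h7 : 0 ≤ (Module.finrank ℚ L : ℝ) * (Module.finrank K[X] A * C3 + |Ch|) := by positivity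
  have e3 : (Module.finrank M L : ℝ) * ((dd - ε) * h + Real.log |(discr M : ℝ)| + Λ * px) =
      Module.finrank M L * ((dd - ε / 2) * h + Real.log |(discr M : ℝ)|) -
        Module.finrank M L * (ε / 2 * h) + Module.finrank M L * (Λ * px) := by ring
  have e4 : (Module.finrank ℚ L : ℝ) *
      (|Cd| + C1 + Λ * |C2| + (Module.finrank K[X] A * C3 + |Ch|)) =
      Module.finrank ℚ L * |Cd| + Module.finrank ℚ L * C1 + Module.finrank ℚ L * (Λ * |C2|) +
        Module.finrank ℚ L * (Module.finrank K[X] A * C3 + |Ch|) := by ring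
  rw [e3, e4]
  rw [mul_add] at h4
  linarith

end Pool.Agent.Results.MP_8865d3_nt.LinearSystemsOnCurves
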